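import Pool.Agent.X126.BP.A

/-!
# Balanced pair algorithm: the example
-/

set_option autoImplicit false

open Polynomial

namespace Pool.Agent.X126.BP

/-- `0 ↦ 01`, `1 ↦ 201`, `2 ↦ 0` -/
def sg : Fin 3 → List (Fin 3)
  | 0 => [0, 1]
  | 1 => [2, 0, 1]
  | 2 => [0]

lemma sg_ne : ∀ i, sg i ≠ [] := by decide

lemma rsg_ne : ∀ i, rev sg i ≠ [] := by decide

lemma fix_u : FixedPt sg (fix sg 0) := fixedPt_fix (a := 0) (w := [1]) sg_ne rfl (by simp)

lemma fix_v : FixedPt (rev sg) (fix (rev sg) 1) :=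
  fixedPt_fix (a := 1) (w := [0, 2]) rsg_ne rfl (by simp)

def P1 : List (Fin 3) × List (Fin 3) := ([0, 1], [1, 0])
def P2 : List (Fin 3) × List (Fin 3) := ([2], [2])
def P3 : List (Fin 3) × List (Fin 3) := ([0], [0])

lemma isP0 : IsP0 (fix sg 0) (fix (rev sg) 1) P1 := by
  refine ⟨2, by norm_num, ?_, by decide, ?_⟩
  · have h1 := pre_fix (a := 0) (w := [1]) (m := 2) (n := 1) sg_ne rfl (by simp) (by decide)
    have h2 := pre_fix (a := 1) (w := [0, 2]) (m := 2) (n := 1) rsg_ne rfl (by simp) (by decide)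
    rw [h1, h2]
    decide
  · intro m h1 h2
    have hm : m = 1 := by omega
    subst hm
    have h1 := pre_fix (a := 0) (w := [1]) (m := 1) (n := 1) sg_ne rfl (by simp) (by decide)
    have h2 := pre_fix (a := 1) (w := [0, 2]) (m := 1) (n := 1) rsg_ne rfl (by simp) (by decide)
    rw [h1, h2]
    decide

/-- the splittings -/
def S (P : List (Fin 3) × List (Fin 3)) : List (List (Fin 3) × List (Fin 3)) :=
  if P = P1 then [P1, P2, P1] else if P = P2 then [P3] else [P1]

def B : Finset (List (Fin 3) × List (Fin 3)) := {P1, P2, P3}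

lemma splits_S : ∀ P ∈ B, Splits (app sg P.1) (app (rev sg) P.2) (S P) := by decide

lemma S_mem : ∀ P ∈ B, ∀ Q ∈ S P, Q ∈ B := by decide

lemma mem_B (P : List (Fin 3) × List (Fin 3)) : P ∈ B ↔ Reach sg P1 P := by
  constructor
  · intro h
    have r1 : Reach sg P1 P1 := Reach.base
    have r2 : Reach sg P1 P2 := Reach.step r1 (splits_S P1 (by decide)) (by decide)
    have r3 : Reach sg P1 P3 := Reach.step r2 (splits_S P2 (by decide)) (by decide)
    simp only [B, Finset.mem_insert, Finset.mem_singleton] at h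
    rcases h with rfl | rfl | rfl
    · exact r1
    · exact r2
    · exact r3
  · intro h
    induction h with
    | base => decide
    | step _ h2 h3 ih =>
      have := split_unique h2 (splits_S _ ih)
      rw [this] at h3
      exact S_mem _ ih _ h3

/-! ### the characteristic polynomials -/

lemma charpoly_inc : (inc sg).charpoly = X ^ 3 - 2 * X ^ 2 - 1 := by
  have h : inc sg = !![1, 1, 1; 1, 1, 0; 0, 1, 0] := by
    ext i j
    fin_cases i <;> fin_cases j <;> simp [inc, sg] <;> decide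
  rw [h, Matrix.charpoly, Matrix.det_fin_three]
  simp [Matrix.charmatrix_apply]
  ring

/-- enumeration of `B` -/
def eB (i : Fin 3) : B := match i with
  | 0 => ⟨P1, by decide⟩
  | 1 => ⟨P2, by decide⟩
  | 2 => ⟨P3, by decide⟩

lemma eB_bij : Function.Bijective eB := by decide

lemma charpoly_mat : (mat B S).charpoly = X ^ 3 - 2 * X ^ 2 - 1 := by
  set e : Fin 3 ≃ B := Equiv.ofBijective eB eB_bij with he
  have h : Matrix.reindex e.symm e.symm (mat B S) = !![2, 0, 1; 1, 0, 0; 0, 1, 0] := by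
    ext i j
    change mat B S (eB i) (eB j) = _
    fin_cases i <;> fin_cases j <;> simp [mat, eB] <;> decide
  have hC : (C (2 : ℚ)) = (2 : ℚ[X]) := map_ofNat C 2
  rw [← Matrix.charpoly_reindex e.symm, h, Matrix.charpoly, Matrix.det_fin_three]
  simp [Matrix.charmatrix_apply, hC]
  ring

lemma det_inc : |(inc sg).det| = 1 := by
  have h : inc sg = !![1, 1, 1; 1, 1, 0; 0, 1, 0] := by
    ext i j
    fin_cases i <;> fin_cases j <;> simp [inc, sg] <;> decide
  rw [h, Matrix.det_fin_three]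
  simp

lemma natDegree_p : (X ^ 3 - 2 * X ^ 2 - 1 : ℚ[X]).natDegree = 3 := by
  compute_degree!

lemma monic_p : (X ^ 3 - 2 * X ^ 2 - 1 : ℚ[X]).Monic := by
  monicity!

lemma irr_p : Irreducible (X ^ 3 - 2 * X ^ 2 - 1 : ℚ[X]) := by
  rw [Polynomial.Monic.irreducible_iff_roots_eq_zero_of_degree_le_three monic_p
    (by rw [natDegree_p]; norm_num) (by rw [natDegree_p])]
  rw [Multiset.eq_zero_iff_forall_notMem]
  intro r hr
  rw [Polynomial.mem_roots monic_p.ne_zero, Polynomial.IsRoot] at hr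
  simp only [eval_sub, eval_pow, eval_X, eval_mul, eval_ofNat, eval_one] at hr
  -- rational root
  have hmon : (X ^ 3 - 2 * X ^ 2 - 1 : ℤ[X]).Monic := by monicity!
  have hz : aeval r (X ^ 3 - 2 * X ^ 2 - 1 : ℤ[X]) = 0 := by
    simp only [map_sub, map_pow, aeval_X, map_mul, map_ofNat, map_one]
    exact hr
  obtain ⟨n, hn⟩ := isInteger_of_is_root_of_monic hmon hz
  rw [← hn] at hr
  simp only [eq_intCast] at hr
  have hn3 : ((n ^ 3 - 2 * n ^ 2 - 1 : ℤ) : ℚ) = 0 := by
    push_cast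
    exact hr
  have hn2 : n ^ 3 - 2 * n ^ 2 - 1 = 0 := Int.cast_eq_zero.1 hn3
  have h1 : n ^ 2 * (n - 2) = 1 := by linarith
  have h2 : n ∣ 1 := ⟨n * (n - 2), by linarith⟩
  rcases Int.isUnit_iff.1 (isUnit_of_dvd_one h2) with h3 | h3 <;> subst h3 <;> norm_num at hn2

/-- the polynomial has a real root `l > 1` and its other complex roots have modulus less than one -/
def IsPisotPoly (p : ℚ[X]) : Prop :=
  ∃ l : ℝ, 1 < l ∧ aeval l p = 0 ∧ ∀ z : ℂ, aeval z p = 0 → z = (l : ℂ) ∨ ‖z‖ < 1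

lemma exists_root : ∃ l : ℝ, 2 < l ∧ l < 9 / 4 ∧ l ^ 3 - 2 * l ^ 2 - 1 = 0 := by
  have hc : ContinuousOn (fun x : ℝ => x ^ 3 - 2 * x ^ 2 - 1) (Set.Icc 2 (9 / 4)) := by fun_prop
  have h := intermediate_value_Ioo (by norm_num : (2 : ℝ) ≤ 9 / 4) hc
  obtain ⟨l, ⟨h1, h2⟩, h3⟩ := h (show (0 : ℝ) ∈ Set.Ioo _ _ by constructor <;> norm_num)
  exact ⟨l, h1, h2, h3⟩

lemma pisot_p : IsPisotPoly (X ^ 3 - 2 * X ^ 2 - 1 : ℚ[X]) := by
  obtain ⟨l, h1, h2, h3⟩ := exists_root
  refine ⟨l, by linarith, ?_, ?_⟩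
  · simp only [map_sub, map_pow, aeval_X, map_mul, map_ofNat, map_one]
    exact h3
  · intro z hz
    simp only [map_sub, map_pow, aeval_X, map_mul, map_ofNat, map_one] at hz
    by_cases hzl : z = (l : ℂ)
    · exact Or.inl hzl
    · right
      have h4 : z ^ 2 + (l - 2) * z + l * (l - 2) = 0 := by
        have h5 : (z - l) * (z ^ 2 + (l - 2) * z + l * (l - 2)) = 0 := by
          have h6 : ((l : ℂ)) ^ 3 - 2 * (l : ℂ) ^ 2 - 1 = 0 := by exact_mod_cast h3
          linear_combination hz - h6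
        rcases mul_eq_zero.1 h5 with h7 | h7
        · exact absurd (sub_eq_zero.1 h7) hzl
        · exact h7
      have hre := congrArg Complex.re h4
      have him := congrArg Complex.im h4
      simp only [pow_two, Complex.add_re, Complex.mul_re, Complex.sub_re, Complex.ofReal_re,
        Complex.add_im, Complex.mul_im, Complex.sub_im, Complex.ofReal_im, Complex.zero_re,
        Complex.zero_im, Complex.re_ofNat, Complex.im_ofNat] at hre him
      have h8 : ‖z‖ ^ 2 = z.re * z.re + z.im * z.im := by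
        rw [← Complex.normSq_eq_norm_sq, Complex.normSq_apply]
      have h9 : z.im * (2 * z.re + (l - 2)) = 0 := by linarith
      have h10 : ‖z‖ ^ 2 < 1 := by
        rw [h8]
        rcases mul_eq_zero.1 h9 with h11 | h11
        · exfalso
          rw [h11] at hre
          nlinarith [sq_nonneg (z.re + (l - 2) / 2)]
        · have : z.re = -(l - 2) / 2 := by linarith
          have h12 : z.re * z.re + z.im * z.im = l * (l - 2) := by nlinarith
          rw [h12]
          nlinarith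
      nlinarith [norm_nonneg z]

lemma p_ne_rev : (X ^ 3 - 2 * X ^ 2 - 1 : ℚ[X]) ≠ (X ^ 3 - 2 * X ^ 2 - 1 : ℚ[X]).reverse := by
  intro h
  have h1 := congrArg (fun f => Polynomial.coeff f 0) h
  simp only [Polynomial.coeff_zero_reverse, monic_p.leadingCoeff] at h1
  simp at h1
  norm_num at h1

lemma not_dvd : ¬ (X ^ 3 - 2 * X ^ 2 - 1 : ℚ[X]).reverse ∣ (X ^ 3 - 2 * X ^ 2 - 1 : ℚ[X]) := by
  rintro ⟨g, hg⟩
  obtain ⟨l, h1, h2, h3⟩ := exists_root
  have hl : l ≠ 0 := by linarith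
  haveI : Invertible l := invertibleOfNonzero hl
  have h4 := (Polynomial.eval₂_reverse_eq_zero_iff (algebraMap ℚ ℝ) l
    (X ^ 3 - 2 * X ^ 2 - 1 : ℚ[X])).2 (by
      simp only [eval₂_sub, eval₂_mul, eval₂_X_pow, eval₂_ofNat, eval₂_one]
      exact h3)
  have h5 := congrArg (Polynomial.eval₂ (algebraMap ℚ ℝ) (⅟l)) hg
  rw [Polynomial.eval₂_mul, h4, zero_mul] at h5
  simp only [eval₂_sub, eval₂_mul, eval₂_X_pow, eval₂_ofNat, eval₂_one, invOf_eq_inv] at h5
  have h6 : 0 < l⁻¹ := by positivity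
  have h7 : l⁻¹ < 1 := inv_lt_one_of_one_lt₀ (by linarith)
  nlinarith [pow_pos h6 2, pow_pos h6 3, mul_pos h6 h6]

end Pool.Agent.X126.BP
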