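import Mathlib

/-!
# Balanced pair algorithm: definitions and general lemmas
-/

set_option autoImplicit false

namespace Pool.Agent.X126.BP

variable {k : ℕ}

/-- the action of a substitution on words -/
def app (σ : Fin k → List (Fin k)) (U : List (Fin k)) : List (Fin k) := U.flatMap σ

/-- the reversal of a substitution -/
def rev (σ : Fin k → List (Fin k)) : Fin k → List (Fin k) := fun i => (σ i).reverse

/-- the incidence matrix -/
def inc (σ : Fin k → List (Fin k)) : Matrix (Fin k) (Fin k) ℚ := fun i j => ((σ j).count i : ℚ)

/-- prefix of length `n` of an infinite word -/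
def pre (u : ℕ → Fin k) (n : ℕ) : List (Fin k) := (List.range n).map u

/-- `u` is fixed by `σ` -/
def FixedPt (σ : Fin k → List (Fin k)) (u : ℕ → Fin k) : Prop :=
  ∀ n, app σ (pre u n) = pre u (app σ (pre u n)).length

/-- balanced pair -/
def Bal (P : List (Fin k) × List (Fin k)) : Prop := ∀ a, P.1.count a = P.2.count a

instance (P : List (Fin k) × List (Fin k)) : Decidable (Bal P) := by unfold Bal; infer_instance

/-- minimal balanced pair -/
def MinBal (P : List (Fin k) × List (Fin k)) : Prop :=
  P.1 ≠ [] ∧ Bal P ∧ ∀ m < P.1.length, 1 ≤ m → ¬ Bal (P.1.take m, P.2.take m)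

instance (P : List (Fin k) × List (Fin k)) : Decidable (MinBal P) := by
  unfold MinBal; infer_instance

/-- `L` is the splitting of the pair `(X, Y)` into minimal balanced pairs -/
def Splits (X Y : List (Fin k)) (L : List (List (Fin k) × List (Fin k))) : Prop :=
  (∀ P ∈ L, MinBal P) ∧ (L.map Prod.fst).flatten = X ∧ (L.map Prod.snd).flatten = Y

instance (X Y : List (Fin k)) (L : List (List (Fin k) × List (Fin k))) :
    Decidable (Splits X Y L) := by unfold Splits; infer_instance

/-- the pairs reached by the algorithm -/
inductive Reach (σ : Fin k → List (Fin k)) (P0 : List (Fin k) × List (Fin k)) :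
    List (Fin k) × List (Fin k) → Prop
  | base : Reach σ P0 P0
  | step {P Q : List (Fin k) × List (Fin k)} {L : List (List (Fin k) × List (Fin k))} :
      Reach σ P0 P → Splits (app σ P.1) (app (rev σ) P.2) L → Q ∈ L → Reach σ P0 Q

/-- the first pair: the balanced prefixes of `u`, `v` of least length `n ≥ 1` -/
def IsP0 (u v : ℕ → Fin k) (P : List (Fin k) × List (Fin k)) : Prop :=
  ∃ n, 1 ≤ n ∧ P = (pre u n, pre v n) ∧ Bal P ∧ ∀ m, 1 ≤ m → m < n → ¬ Bal (pre u m, pre v m)

/-- the incidence matrix of the substitution `P ↦ S P` on the alphabet `B` -/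
def mat (B : Finset (List (Fin k) × List (Fin k)))
    (S : List (Fin k) × List (Fin k) → List (List (Fin k) × List (Fin k))) : Matrix B B ℚ :=
  fun Q P => ((S P.1).count Q.1 : ℚ)

lemma Bal.length_eq {P : List (Fin k) × List (Fin k)} (h : Bal P) : P.1.length = P.2.length :=
  (List.perm_iff_count.2 h).length_eq

lemma aux {P Q : List (Fin k) × List (Fin k)} (hP : MinBal P) (hQ : MinBal Q)
    {X X' Y Y' : List (Fin k)} (h1 : P.1 ++ X = Q.1 ++ X') (h2 : P.2 ++ Y = Q.2 ++ Y') :
    ¬ P.1.length < Q.1.length := by
  intro hlt
  have hl1 := hP.2.1.length_eq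
  have hl2 := hQ.2.1.length_eq
  apply hQ.2.2 P.1.length hlt
  · have := List.length_pos_iff.2 hP.1
    omega
  · have e1 : Q.1.take P.1.length = P.1 := by
      have := congrArg (List.take P.1.length) h1
      rw [List.take_left, List.take_append_of_le_length hlt.le] at this
      exact this.symm
    have e2 : Q.2.take P.1.length = P.2 := by
      have := congrArg (List.take P.2.length) h2
      rw [List.take_left, List.take_append_of_le_length (by omega)] at this
      rw [hl1]
      exact this.symm
    rw [e1, e2]
    exact hP.2.1

theorem split_unique {L L' : List (List (Fin k) × List (Fin k))} {X Y : List (Fin k)}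
    (h : Splits X Y L) (h' : Splits X Y L') : L = L' := by
  induction L generalizing X Y L' with
  | nil =>
    obtain ⟨-, h1, -⟩ := h
    obtain ⟨h3, h4, -⟩ := h'
    simp only [List.map_nil, List.flatten_nil] at h1
    rcases L' with _ | ⟨Q, L'⟩
    · rfl
    · exfalso
      rw [← h1] at h4
      simp only [List.map_cons, List.flatten_cons, List.append_eq_nil_iff] at h4
      exact (h3 Q (by simp)).1 h4.1
  | cons P L ih =>
    obtain ⟨a1, a2, a3⟩ := h
    obtain ⟨b1, b2, b3⟩ := h'
    rcases L' with _ | ⟨Q, L'⟩
    · exfalso
      rw [← b2] at a2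
      simp only [List.map_cons, List.flatten_cons, List.map_nil, List.flatten_nil,
        List.append_eq_nil_iff] at a2
      exact (a1 P (by simp)).1 a2.1
    · simp only [List.map_cons, List.flatten_cons] at a2 a3 b2 b3
      have hP := a1 P (by simp)
      have hQ := b1 Q (by simp)
      have e1 := a2.trans b2.symm
      have e2 := a3.trans b3.symm
      have n1 := aux hP hQ e1 e2
      have n2 := aux hQ hP e1.symm e2.symm
      have hl : P.1.length = Q.1.length := by omega
      have hl' : P.2.length = Q.2.length := by
        rw [← hP.2.1.length_eq, ← hQ.2.1.length_eq, hl]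
      have f1 := List.append_inj e1 hl
      have f2 := List.append_inj e2 hl'
      have : P = Q := Prod.ext f1.1 f2.1
      subst this
      congr 1
      exact ih ⟨fun P hP => a1 P (by simp [hP]), rfl, rfl⟩
        ⟨fun P hP => b1 P (by simp [hP]), f1.2.symm, f2.2.symm⟩

/-! ### fixed points -/

/-- iterated words -/
def word (σ : Fin k → List (Fin k)) (a : Fin k) (n : ℕ) : List (Fin k) := (app σ)^[n] [a]

lemma word_succ (σ : Fin k → List (Fin k)) (a : Fin k) (n : ℕ) :
    word σ a (n + 1) = app σ (word σ a n) := Function.iterate_succ_apply' _ _ _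

lemma app_prefix (σ : Fin k → List (Fin k)) {U V : List (Fin k)} (h : U <+: V) :
    app σ U <+: app σ V := by
  obtain ⟨T, rfl⟩ := h
  exact ⟨app σ T, by simp [app]⟩

variable {σ : Fin k → List (Fin k)} {a : Fin k} {w : List (Fin k)}

lemma word_prefix (ha : σ a = a :: w) (n : ℕ) : word σ a n <+: word σ a (n + 1) := by
  induction n with
  | zero =>
    refine ⟨w, ?_⟩
    simp [word, app, ha]
  | succ n ih =>
    rw [word_succ, word_succ σ a (n + 1)]
    exact app_prefix σ ih

lemma word_prefix_le (ha : σ a = a :: w) {m n : ℕ} (h : m ≤ n) : word σ a m <+: word σ a n := by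
  induction n, h using Nat.le_induction with
  | base => exact List.prefix_rfl
  | succ n _ ih => exact ih.trans (word_prefix ha n)

lemma length_app_ge (hσ : ∀ i, σ i ≠ []) (U : List (Fin k)) : U.length ≤ (app σ U).length := by
  induction U with
  | nil => simp
  | cons b U ih =>
    have h1 := List.length_pos_iff.2 (hσ b)
    simp only [app, List.flatMap_cons, List.length_append, List.length_cons] at ih ⊢
    omega

lemma length_word (hσ : ∀ i, σ i ≠ []) (ha : σ a = a :: w) (hw : w ≠ []) (n : ℕ) :
    n < (word σ a n).length := by
  induction n with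
  | zero => simp [word]
  | succ n ih =>
    have h1 : [a] <+: word σ a n := word_prefix_le ha (Nat.zero_le n)
    obtain ⟨T, hT⟩ := h1
    rw [word_succ, ← hT]
    rw [← hT] at ih
    have h2 := length_app_ge hσ T
    have h3 := List.length_pos_iff.2 hw
    simp only [app, List.flatMap_cons, List.flatMap_append, List.length_append, ha,
      List.length_cons, List.flatMap_nil, List.length_nil, List.append_nil, List.cons_append,
      List.nil_append] at ih h2 ⊢
    omega

/-- the fixed point -/
def fix (σ : Fin k → List (Fin k)) (a : Fin k) (i : ℕ) : Fin k := (word σ a i).getD i a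

lemma pre_fix (hσ : ∀ i, σ i ≠ []) (ha : σ a = a :: w) (hw : w ≠ []) {m n : ℕ}
    (h : m ≤ (word σ a n).length) : pre (fix σ a) m = (word σ a n).take m := by
  apply List.ext_getElem
  · simp [pre, h]
  · intro i h1 h2
    have hi : i < m := by simpa [pre] using h1
    have hi2 : i < (word σ a n).length := by omega
    have hi3 : i < (word σ a i).length := length_word hσ ha hw i
    simp only [pre, List.getElem_map, List.getElem_range, List.getElem_take, fix]
    rw [List.getD_eq_getElem _ _ hi3]
    rcases le_total i n with h4 | h4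
    · exact List.IsPrefix.getElem (word_prefix_le ha h4) hi3
    · exact (List.IsPrefix.getElem (word_prefix_le ha h4) hi2).symm

theorem fixedPt_fix (hσ : ∀ i, σ i ≠ []) (ha : σ a = a :: w) (hw : w ≠ []) :
    FixedPt σ (fix σ a) := by
  intro n
  have h1 : n ≤ (word σ a n).length := (length_word hσ ha hw n).le
  have h2 := pre_fix hσ ha hw h1
  have h3 : app σ (pre (fix σ a) n) <+: word σ a (n + 1) := by
    rw [h2, word_succ]
    exact app_prefix σ (List.take_prefix _ _)
  rw [pre_fix hσ ha hw (n := n + 1) h3.length_le]
  exact List.prefix_iff_eq_take.1 h3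

end Pool.Agent.X126.BP
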